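import Pool.Agent.H88.CL.Basic

/-! Row DSJ: the supports are disjoint. -/

set_option autoImplicit false

open Pool.Agent.H88.CL Set Function Topology Metric Filter

namespace Pool.Agent.H68.CL

theorem dsj_aux (h1 : T_ITA) (h2 : T_ITL) {d : ℕ} {L : ℝ} {F F' : E d → E d} (hC : Cfg d L F F')
    {N : ℕ} {b p v : E d} {P : E d ≃L[ℝ] E d} {θ : ℝ} (hP : ∀ w, ‖P w‖ ≤ L ^ (2 * N) * ‖w‖)
    (hN : ∀ k, 1 ≤ k → k ≤ N → ¬ Near θ (F^[k] b) b) (hθ : 3 * L ^ (3 * N) * (‖p - b‖ + ‖v‖) ≤ θ)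
    {l l' : ℕ} (hll : l < l') (hl' : l' < N) {x x' : E d}
    (hx : ‖P.symm (x - p) - (1 / 2 : ℝ) • v‖ ≤ 3 / 4 * ‖v‖)
    (hx' : ‖P.symm (x' - p) - (1 / 2 : ℝ) • v‖ ≤ 3 / 4 * ‖v‖)
    (hlat : F^[l] x - F^[l'] x' ∈ Lat d) : False := by
  obtain ⟨k, rfl⟩ : ∃ k, l' = l + k := ⟨l' - l, by omega⟩
  have hk1 : 1 ≤ k := by omega
  have hkN : k ≤ N := by omega
  rw [iterate_add_apply] at hlat
  have h3 := (h2 d F F' hC.toIsLift l x (F^[k] x')).1 hlat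
  apply hN k hk1 hkN
  refine ⟨F^[k] x' - x, by rw [← neg_mem_iff, neg_sub]; exact h3, ?_⟩
  have hL := hC.one_le
  have hM1 : 1 ≤ L ^ N := one_le_pow₀ hL
  have hkM : L ^ k ≤ L ^ N := pow_le_pow_right₀ hL hkN
  have key : ∀ y : E d, ‖P.symm (y - p) - (1 / 2 : ℝ) • v‖ ≤ 3 / 4 * ‖v‖ →
      ‖y - b‖ ≤ 5 / 4 * (L ^ N) ^ 2 * ‖v‖ + ‖p - b‖ := by
    intro y hy
    have e1 : y - b = P (P.symm (y - p)) + (p - b) := by
      rw [P.apply_symm_apply]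
      abel
    have e2 : P.symm (y - p) = (P.symm (y - p) - (1 / 2 : ℝ) • v) + (1 / 2 : ℝ) • v := by abel
    have e3 : ‖P.symm (y - p)‖ ≤ 5 / 4 * ‖v‖ := by
      rw [e2]
      refine (norm_add_le _ _).trans ?_
      rw [norm_smul, Real.norm_eq_abs, abs_of_pos (by norm_num : (0 : ℝ) < 1 / 2)]
      linarith
    rw [e1]
    refine (norm_add_le _ _).trans ?_
    have e4 := hP (P.symm (y - p))
    rw [mul_comm 2 N, pow_mul] at e4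
    have e5 : (L ^ N) ^ 2 * ‖P.symm (y - p)‖ ≤ (L ^ N) ^ 2 * (5 / 4 * ‖v‖) :=
      mul_le_mul_of_nonneg_left e3 (by positivity)
    linarith
  have e1 : F^[k] b - b - (F^[k] x' - x) = (F^[k] b - F^[k] x') + (x - b) := by abel
  rw [e1]
  refine (norm_add_le _ _).trans ?_
  have h4 := (h1 d L F F' hC k).2.2.1 b x'
  have h5 : L ^ k * ‖b - x'‖ ≤ L ^ N * ‖b - x'‖ := mul_le_mul_of_nonneg_right hkM (norm_nonneg _)
  have h6 := key x hx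
  have h7 := key x' hx'
  rw [norm_sub_rev] at h7
  refine le_trans ?_ hθ
  rw [show L ^ (3 * N) = (L ^ N) ^ 3 by rw [mul_comm 3 N, pow_mul]]
  set M := L ^ N with hM
  have h8 : M * ‖b - x'‖ ≤ M * (5 / 4 * M ^ 2 * ‖v‖ + ‖p - b‖) :=
    mul_le_mul_of_nonneg_left h7 (by linarith)
  have hv := norm_nonneg v
  have hp := norm_nonneg (p - b)
  have h9 : M ≤ M ^ 3 := le_self_pow₀ hM1 (by norm_num)
  have h10 : M ^ 2 ≤ M ^ 3 := pow_le_pow_right₀ hM1 (by norm_num)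
  have h11 : M ^ 2 * ‖v‖ ≤ M ^ 3 * ‖v‖ := mul_le_mul_of_nonneg_right h10 hv
  have h12 : M * ‖p - b‖ ≤ M ^ 3 * ‖p - b‖ := mul_le_mul_of_nonneg_right h9 hp
  have h13 : 1 * ‖p - b‖ ≤ M ^ 3 * ‖p - b‖ := mul_le_mul_of_nonneg_right (hM1.trans h9) hp
  have h14 : 0 ≤ M ^ 3 * ‖v‖ := by positivity
  have h15 : 0 ≤ M ^ 3 * ‖p - b‖ := by positivity
  nlinarith

theorem pf_DSJ (h1 : T_ITA) (h2 : T_ITL) : T_DSJ := by
  intro d L F F' hC N b p v P θ hP hN hθ l hl l' hl' x x' hx hx' hlat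
  rcases lt_trichotomy l l' with h | h | h
  · exact (dsj_aux h1 h2 hC hP hN hθ h hl' hx hx' hlat).elim
  · exact h
  · refine (dsj_aux h1 h2 hC hP hN hθ h hl hx' hx ?_).elim
    rw [← neg_mem_iff, neg_sub]
    exact hlat

end Pool.Agent.H68.CL
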