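import Pool.Agent.H88.CL.Basic

/-! Row GML: the perturbed map is a lift. -/

set_option autoImplicit false

open Pool.Agent.H88.CL Set Function Topology Metric Filter

namespace Pool.Agent.H68.CL

theorem pf_GML (h : T_DIF) : T_GML := by
  intro d F F' σ β γ U hF hU hβ
  obtain ⟨H', hc, hl, hr, hp⟩ := h d σ β γ U hU hβ
  refine ⟨fun y => H' (F' y), ?_⟩
  refine { c2 := ?_, c2' := ?_, li := ?_, ri := ?_, per := ?_, per' := ?_ }
  · exact hF.c2.comp (contDiff_id.add hU.c2)
  · exact hc.comp hF.c2'
  · intro x
    show H' (F' (F (x + U x))) = x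
    rw [hF.li, hl]
  · intro x
    show F (H' (F' x) + U (H' (F' x))) = x
    rw [hr, hF.ri]
  · intro x z hz
    show F (x + z + U (x + z)) - F (x + U x) ∈ Lat d
    rw [hU.per x z hz]
    have := hF.per (x + U x) z hz
    rwa [show x + U x + z = x + z + U x by abel] at this
  · intro x z hz
    show H' (F' (x + z)) - H' (F' x) ∈ Lat d
    have h1 := hF.per' x z hz
    have h2 := hp (F' x) _ h1
    rw [add_sub_cancel] at h2
    rw [h2]
    simpa using h1

end Pool.Agent.H68.CL
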